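import Pool.Agent.Helper37.DG.Stmts2
import Pool.Agent.Helper4.DG.LOW

set_option autoImplicit false

/-!
Module LOWD of the project DG (MP_e500b6_co): the lower bound sieve for any set of primes in
`(y, y ^ (2 ^ K)]`.
-/

namespace Pool.Agent.Helper37.DG

open Finset
open scoped Classical
open Pool.Agent.Helper17.SO (PP LL)

/-- the blocks -/
noncomputable def lowd_B (A : Finset ℕ) (y K m : ℕ) : Finset ℕ :=
  A.filter (fun p => y ^ (2 ^ (K - 1 - m)) < p ∧ p ≤ y ^ (2 ^ (K - m)))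

theorem lowd_mem {A : Finset ℕ} {y K m p : ℕ} : p ∈ lowd_B A y K m ↔
    p ∈ A ∧ y ^ (2 ^ (K - 1 - m)) < p ∧ p ≤ y ^ (2 ^ (K - m)) := by
  unfold lowd_B
  rw [mem_filter]

theorem lowd_mem_PP {u w p : ℕ} : p ∈ PP u w ↔ (u < p ∧ p ≤ w) ∧ p.Prime := by
  unfold PP
  rw [mem_filter, mem_Ioc]

theorem lowd_un {A : Finset ℕ} {y : ℕ} (hy : 2 ≤ y) (K : ℕ) (hA : A ⊆ PP y (y ^ (2 ^ K))) :
    un K (lowd_B A y K) = A := by
  ext p
  unfold un
  rw [mem_biUnion]
  constructor
  · rintro ⟨m, _, hp⟩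
    exact (lowd_mem.1 hp).1
  · intro hpA
    obtain ⟨⟨h1, h2⟩, _⟩ := lowd_mem_PP.1 (hA hpA)
    have hex : ∃ i, p ≤ y ^ (2 ^ i) := ⟨K, h2⟩
    set i := Nat.find hex with hi
    have hi1 : p ≤ y ^ (2 ^ i) := Nat.find_spec hex
    have hi2 : i ≤ K := Nat.find_min' hex h2
    have hi0 : 1 ≤ i := by
      by_contra h
      have h0 : i = 0 := by omega
      rw [h0] at hi1
      simp at hi1
      omega
    refine ⟨K - i, mem_range.2 (by omega), ?_⟩
    rw [lowd_mem]
    have e1 : K - (K - i) = i := by omega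
    have e2 : K - 1 - (K - i) = i - 1 := by omega
    rw [e1, e2]
    refine ⟨hpA, ?_, hi1⟩
    by_contra h
    have := Nat.find_min' hex (not_lt.1 h)
    omega

theorem lowd_dsj (A : Finset ℕ) {y : ℕ} (hy : 2 ≤ y) (K : ℕ) : Dsj K (lowd_B A y K) := by
  have key : ∀ m < K, ∀ m' < K, m < m' → Disjoint (lowd_B A y K m) (lowd_B A y K m') := by
    intro m _ m' _ hmm
    rw [disjoint_left]
    intro p hp hp'
    rw [lowd_mem] at hp hp'
    have h1 : y ^ (2 ^ (K - m')) ≤ y ^ (2 ^ (K - 1 - m)) :=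
      Nat.pow_le_pow_right (by omega) (Nat.pow_le_pow_right (by norm_num) (by omega))
    omega
  intro m hm m' hm' hne
  rcases lt_or_gt_of_ne hne with h | h
  · exact key m hm m' hm' h
  · exact (key m' hm' m hm h).symm

theorem lowd_sum {CM : ℝ} (hM : ∀ u w : ℕ, 2 ≤ u → u ≤ w →
    |∑ p ∈ PP u w, 1 / (p : ℝ) - LL u w| ≤ CM) {A : Finset ℕ} {y : ℕ} (hy : 2 ≤ y) (K m : ℕ)
    (hA : A ⊆ PP y (y ^ (2 ^ K))) (hm : m < K) :
    ∑ p ∈ lowd_B A y K m, 1 / (p : ℝ) ≤ Real.log 2 + CM := by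
  set w := y ^ (2 ^ (K - 1 - m)) with hw
  have hw2 : 2 ≤ w := hy.trans (Nat.le_self_pow (by positivity) y)
  have hww : y ^ (2 ^ (K - m)) = w ^ 2 := by
    rw [hw, ← pow_mul]
    congr 1
    rw [← pow_succ]
    congr 1
    omega
  have h1 : ∑ p ∈ lowd_B A y K m, 1 / (p : ℝ) ≤ ∑ p ∈ PP w (w ^ 2), 1 / (p : ℝ) := by
    refine sum_le_sum_of_subset_of_nonneg ?_ fun p _ _ => by positivity
    intro p hp
    rw [lowd_mem, hww, ← hw] at hp
    rw [lowd_mem_PP]
    exact ⟨hp.2, (lowd_mem_PP.1 (hA hp.1)).2⟩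
  have h2 := hM w (w ^ 2) hw2 (Nat.le_self_pow (by norm_num) w)
  have h3 : LL w (w ^ 2) = Real.log 2 := by
    unfold LL
    have h4 : (0 : ℝ) < Real.log w := Real.log_pos (by exact_mod_cast hw2)
    push_cast
    rw [Real.log_pow]
    push_cast
    rw [mul_div_assoc, div_self h4.ne', mul_one]
  rw [h3, abs_le] at h2
  linarith [h2.2]

theorem lowd_pr (A : Finset ℕ) {y : ℕ} (hy : 2 ≤ y) (K β : ℕ) (T : Finset ℕ)
    (hT : T ⊆ un K (lowd_B A y K))
    (h : ∀ m < K, (T ∩ lowd_B A y K m).card ≤ 2 * (β + m) + 1) :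
    pr T ≤ (y ^ (2 ^ K)) ^ (4 * β + 6) := by
  have h1 : T = (range K).biUnion (fun m => T ∩ lowd_B A y K m) := by
    rw [← inter_biUnion]
    exact (inter_eq_left.2 hT).symm
  have h2 : pr T = ∏ m ∈ range K, pr (T ∩ lowd_B A y K m) := by
    conv_lhs => rw [h1]
    unfold pr
    rw [prod_biUnion]
    intro m hm m' hm' hne
    exact (lowd_dsj A hy K m (mem_range.1 hm) m' (mem_range.1 hm') hne).mono
      inter_subset_right inter_subset_right
  have h3 : ∀ m ∈ range K, pr (T ∩ lowd_B A y K m) ≤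
      (y ^ (2 ^ (K - m))) ^ (2 * (β + m) + 1) := by
    intro m hm
    unfold pr
    have h4 : ∏ p ∈ T ∩ lowd_B A y K m, p ≤ ∏ p ∈ T ∩ lowd_B A y K m, y ^ (2 ^ (K - m)) := by
      apply prod_le_prod'
      intro p hp
      have := (mem_inter.1 hp).2
      rw [lowd_mem] at this
      exact this.2.2
    rw [prod_const] at h4
    exact h4.trans (Nat.pow_le_pow_right (Nat.pow_pos (by omega)) (h m (mem_range.1 hm)))
  rw [h2]
  refine (prod_le_prod' h3).trans ?_
  have h5 : ∏ m ∈ range K, (y ^ (2 ^ (K - m))) ^ (2 * (β + m) + 1)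
      = y ^ (∑ m ∈ range K, 2 ^ (K - m) * (2 * (β + m) + 1)) := by
    rw [← prod_pow_eq_pow_sum]
    exact prod_congr rfl fun m _ => (pow_mul _ _ _).symm
  rw [h5, ← pow_mul]
  exact Nat.pow_le_pow_right (by omega) (low_exp K β)

theorem st_LOWD (h1 : ST_LSD) (h2 : ST_SV1) (h3 : ST_SV3) (h4 : Pool.Agent.Helper17.SO.ST_MER) :
    ST_LOWD := by
  obtain ⟨CM, hCM, hM⟩ := h4
  obtain ⟨C1, hC1, hLSD⟩ := h1
  have hS : 0 < Real.log 2 + CM + 1 := by
    have := Real.log_nonneg (show (1 : ℝ) ≤ 2 by norm_num)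
    linarith
  obtain ⟨β, C3, hC3, hSV⟩ := h3 (Real.log 2 + CM + 1) hS
  have hC3r : (2 : ℝ) ≤ C3 := by exact_mod_cast hC3
  refine ⟨8 * β + 12, max C3 2, 1 / (2 * C3), 4 * C3 ^ 2 * C1, by omega, by positivity,
    by positivity, ?_⟩
  intro j N M P y K A hM1 hN1 hP hy hz hAs hd
  have hy2 : 2 ≤ y := (le_max_right _ _).trans hy
  have hyC : C3 ≤ y := (le_max_left _ _).trans hy
  set z := y ^ (2 ^ K) with hzdef
  have hun := lowd_un hy2 K hAs
  have hAp : ∀ p ∈ A, p.Prime ∧ y < p := by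
    intro p hp
    have hp' := lowd_mem_PP.1 (hAs hp)
    exact ⟨hp'.2, hp'.1.1⟩
  obtain ⟨E, hE0, hEn, hE, hEQ⟩ := hLSD j N M P A hN1 hM1 hP (fun p hp => (hAp p hp).1)
  obtain ⟨hs1, hs2⟩ := hSV K (lowd_B A y K) (lowd_dsj A hy2 K) (by
      intro m hm p hp
      have hp' : p ∈ un K (lowd_B A y K) := by
        unfold un
        exact mem_biUnion.2 ⟨m, mem_range.2 hm, hp⟩
      rw [hun] at hp'
      have := (hAp p hp').2
      omega) (by
      intro m hm
      have := lowd_sum hM hy2 K m hAs hm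
      linarith)
  have hsv1 := h2 K (lowd_B A y K) β (lowd_dsj A hy2 K)
  rw [hun] at hs1 hs2 hsv1
  have hposr : ∀ T ∈ A.powerset, (0 : ℝ) < pr T := by
    intro T hT
    unfold pr
    push_cast
    exact prod_pos fun p hp => by
      have := (hAp p (mem_powerset.1 hT hp)).1.pos
      exact_mod_cast this
  have hswap := low_swap j P A (Lam K (lowd_B A y K) β) E hposr hsv1 hE
  refine le_trans ?_ hswap
  set c : Finset ℕ → ℝ := fun U => ∑ T ∈ A.powerset.filter (fun T => U ⊆ T),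
    Lam K (lowd_B A y K) β T / pr T with hc
  set Q := z ^ (4 * β + 6) with hQ
  have hypos : (0 : ℝ) < y := by
    have : 0 < y := by omega
    exact_mod_cast this
  have hsy : 0 < Real.sqrt y := Real.sqrt_pos.2 hypos
  have hsw : 0 < sw A := Real.exp_pos _
  -- large `U`
  have hbig : ∀ U ∈ A.powerset, Q < pr U → c U = 0 := by
    intro U hU hUQ
    rw [hc]
    apply sum_eq_zero
    intro T hT
    rw [mem_filter, mem_powerset] at hT
    by_contra hne
    have hL : Lam K (lowd_B A y K) β T ≠ 0 := by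
      intro h
      rw [h, zero_div] at hne
      exact hne rfl
    have h5 := lowd_pr A hy2 K β T (by rw [hun]; exact hT.1) (low_supp K _ β T hL)
    rw [← hzdef, ← hQ] at h5
    have h6 : pr U ≤ pr T := by
      unfold pr
      apply prod_le_prod_of_subset_of_one_le' hT.2
      intro p hp _
      exact (hAp p (hT.1 hp)).1.one_lt.le
    omega
  have hpru : ∀ U ∈ A.powerset, U ≠ ∅ → (y : ℝ) ≤ pr U := by
    intro U hU hne
    obtain ⟨p, hp⟩ := nonempty_iff_ne_empty.2 hne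
    have h5 : p ≤ pr U := by
      unfold pr
      exact single_le_prod' (f := fun p => p)
        (fun q hq => (hAp q (mem_powerset.1 hU hq)).1.one_lt.le) hp
    have h6 := (hAp p (mem_powerset.1 hU hp)).2
    exact_mod_cast (h6.le.trans h5)
  have hterm : ∀ U ∈ A.powerset, (if U = ∅ then E ∅ * c ∅ else 0)
      - (if pr U ≤ Q then E U else 0) * (C3 * sw A / Real.sqrt y) ≤ E U * c U := by
    intro U hU
    have hEU := hEn U hU
    have hpos2 : 0 ≤ C3 * sw A / Real.sqrt y := by positivity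
    by_cases hU0 : U = ∅
    · rw [if_pos hU0, hU0]
      have : 0 ≤ (if pr ∅ ≤ Q then E ∅ else 0) * (C3 * sw A / Real.sqrt y) := by
        apply mul_nonneg _ hpos2
        split_ifs
        · rw [hE0]
          positivity
        · exact le_rfl
      linarith
    · rw [if_neg hU0]
      by_cases hUQ : pr U ≤ Q
      · rw [if_pos hUQ]
        have h5 := hs2 U (mem_powerset.1 hU)
        have h6 : C3 * sw A / Real.sqrt (pr U) ≤ C3 * sw A / Real.sqrt y := by
          apply div_le_div_of_nonneg_left (by positivity) hsy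
          exact Real.sqrt_le_sqrt (hpru U hU hU0)
        have h7 := (abs_le.1 (h5.trans h6)).1
        have h8 : E U * (-(C3 * sw A / Real.sqrt y)) ≤ E U * c U :=
          mul_le_mul_of_nonneg_left h7 hEU
        linarith
      · rw [if_neg hUQ, hbig U hU (not_le.1 hUQ)]
        simp
  have hsumm := sum_le_sum hterm
  rw [sum_sub_distrib, ← sum_mul] at hsumm
  have e1 : ∑ U ∈ A.powerset, (if U = ∅ then E ∅ * c ∅ else 0) = E ∅ * c ∅ := by
    rw [sum_ite_eq' A.powerset ∅ (fun _ => E ∅ * c ∅)]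
    rw [if_pos (empty_mem_powerset A)]
  have hQ1 : 1 ≤ Q := by
    rw [hQ, hzdef]
    exact Nat.one_le_iff_ne_zero.2 (by positivity)
  have e2 : ∑ U ∈ A.powerset, (if pr U ≤ Q then E U else 0) ≤
      C1 * (M * ((N : ℝ) + (Q : ℝ) ^ 2)) * P.card := by
    rw [← sum_filter]
    exact hEQ Q hQ1
  have hQN : (Q : ℝ) ^ 2 ≤ N := by
    have : Q ^ 2 ≤ N := by
      rw [hQ, ← pow_mul]
      have e : (4 * β + 6) * 2 = 8 * β + 12 := by ring
      rw [e]
      exact hz
    exact_mod_cast this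
  rw [e1, hE0] at hsumm
  have e3 : sw A ≤ C3 * c ∅ := by
    refine hs1.trans (le_of_eq ?_)
    rw [hc]
    congr 1
    refine sum_congr ?_ fun _ _ => rfl
    ext T
    rw [mem_filter]
    exact ⟨fun h => ⟨h, empty_subset T⟩, fun h => h.1⟩
  refine le_trans ?_ hsumm
  have e4 : (∑ U ∈ A.powerset, (if pr U ≤ Q then E U else 0)) * (C3 * sw A / Real.sqrt y) ≤
      (C1 * (M * (2 * N)) * P.card) * (C3 * sw A / Real.sqrt y) := by
    apply mul_le_mul_of_nonneg_right (e2.trans _) (by positivity)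
    apply mul_le_mul_of_nonneg_right _ (by positivity)
    apply mul_le_mul_of_nonneg_left _ hC1.le
    apply mul_le_mul_of_nonneg_left _ (by positivity)
    linarith
  have hC3pos : (0 : ℝ) < C3 := by linarith
  have e5 : (P.card : ℝ) ^ 2 * (sw A / C3) ≤ (P.card : ℝ) ^ 2 * c ∅ := by
    apply mul_le_mul_of_nonneg_left _ (by positivity)
    rw [div_le_iff₀ hC3pos]
    linarith
  have e6 : (C1 * (M * (2 * N)) * P.card) * (C3 * sw A / Real.sqrt y) ≤
      1 / (2 * C3) * sw A * (P.card : ℝ) ^ 2 := by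
    have h5 : (C1 * (M * (2 * N)) * P.card) * (C3 * sw A / Real.sqrt y)
        = (4 * C3 ^ 2 * C1 * (M * N)) * (P.card * sw A / (2 * C3 * Real.sqrt y)) := by
      field_simp
      ring
    rw [h5]
    refine (mul_le_mul_of_nonneg_right hd (by positivity)).trans (le_of_eq ?_)
    field_simp
  have e7 : 1 / (2 * C3) * sw A * (P.card : ℝ) ^ 2
      = (P.card : ℝ) ^ 2 * (sw A / C3) - 1 / (2 * C3) * sw A * (P.card : ℝ) ^ 2 := by
    field_simp
    ring
  linarith

end Pool.Agent.Helper37.DG
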